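import Mathlib

set_option autoImplicit false

/-!
Remez type inequality for real polynomials on an interval, in the form used for
quantitative nondivergence and linearisation.
-/

namespace Pool.Agent.RT

open MeasureTheory Polynomial Set

/-- separated points in a set of large measure -/
theorem exists_separated (k : ℕ) : ∀ (E : Set ℝ) (a b δ : ℝ), MeasurableSet E → E ⊆ Icc a b →
    0 < δ → ENNReal.ofReal (k * δ) < volume E →
    ∃ x : ℕ → ℝ, (∀ i, i ≤ k → x i ∈ E) ∧ ∀ i, i < k → x i + δ ≤ x (i + 1) := by
  induction k with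
  | zero =>
    intro E a b δ hE hEab hδ hvol
    have hne : E.Nonempty := by
      rw [Set.nonempty_iff_ne_empty]
      rintro rfl
      simp at hvol
    obtain ⟨y, hy⟩ := hne
    exact ⟨fun _ => y, fun i _ => hy, fun i hi => absurd hi (Nat.not_lt_zero i)⟩
  | succ k ih =>
    intro E a b δ hE hEab hδ hvol
    have hne : E.Nonempty := by
      rw [Set.nonempty_iff_ne_empty]
      rintro rfl
      simp at hvol
    have hbdd : BddBelow E := ⟨a, fun y hy => (hEab hy).1⟩
    have hfin : volume E ≠ ⊤ := by
      refine ne_top_of_le_ne_top ?_ (measure_mono hEab)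
      simp
    set v : ℝ := (volume E).toReal with hv
    have hvE : volume E = ENNReal.ofReal v := by rw [hv, ENNReal.ofReal_toReal hfin]
    have hlt : ((k + 1 : ℕ) : ℝ) * δ < v := by
      rw [hvE] at hvol
      have h0 : (0 : ℝ) ≤ ((k + 1 : ℕ) : ℝ) * δ := by positivity
      exact (ENNReal.ofReal_lt_ofReal_iff_of_nonneg h0).1 hvol
    set η : ℝ := (v - ((k + 1 : ℕ) : ℝ) * δ) / 2 with hη
    have hηpos : 0 < η := by rw [hη]; linarith
    obtain ⟨x0, hx0E, hx0⟩ : ∃ y ∈ E, y < sInf E + η :=
      exists_lt_of_csInf_lt hne (by linarith)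
    set E' : Set ℝ := E ∩ Ici (x0 + δ) with hE'
    have hE'm : MeasurableSet E' := hE.inter measurableSet_Ici
    have hsub : E ⊆ E' ∪ Ico (sInf E) (x0 + δ) := by
      intro y hy
      by_cases h : x0 + δ ≤ y
      · exact Or.inl ⟨hy, h⟩
      · exact Or.inr ⟨csInf_le hbdd hy, not_le.1 h⟩
    have hvol' : ENNReal.ofReal ((k : ℝ) * δ) < volume E' := by
      by_contra hcon
      push Not at hcon
      have h1 : volume E ≤ ENNReal.ofReal ((k : ℝ) * δ) + ENNReal.ofReal (η + δ) := by
        calc volume E ≤ volume (E' ∪ Ico (sInf E) (x0 + δ)) := measure_mono hsub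
          _ ≤ volume E' + volume (Ico (sInf E) (x0 + δ)) := measure_union_le _ _
          _ ≤ ENNReal.ofReal ((k : ℝ) * δ) + ENNReal.ofReal (η + δ) := by
              refine add_le_add hcon ?_
              rw [Real.volume_Ico]
              exact ENNReal.ofReal_le_ofReal (by linarith)
      rw [← ENNReal.ofReal_add (by positivity) (by positivity), hvE] at h1
      have h2 := (ENNReal.ofReal_le_ofReal_iff (by positivity)).1 h1
      have h3 : ((k + 1 : ℕ) : ℝ) = (k : ℝ) + 1 := by push_cast; ring
      rw [h3] at hlt hη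
      have h4 : η = (v - ((k : ℝ) + 1) * δ) / 2 := hη
      nlinarith
    obtain ⟨y, hy1, hy2⟩ := ih E' a b δ hE'm (fun z hz => hEab hz.1) hδ hvol'
    refine ⟨fun i => Nat.casesOn i x0 (fun j => y j), ?_, ?_⟩
    · intro i hi
      cases i with
      | zero => exact hx0E
      | succ j => exact (hy1 j (by omega)).1
    · intro i hi
      cases i with
      | zero => exact (hy1 0 (Nat.zero_le _)).2
      | succ j => exact hy2 j (by omega)

/-- Remez type inequality: if a polynomial of degree at most `D` is at most `ε` in absolute value on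
a subset `E` of `[a,b]`, then `|E|^D |p(t)| ≤ (D+1)^(D+1) (b-a)^D ε` for every `t` in `[a,b]`. -/
theorem remez_set (D : ℕ) (p : ℝ[X]) (hp : p.natDegree ≤ D) (a b ε : ℝ)
    (E : Set ℝ) (hE : MeasurableSet E) (hEab : E ⊆ Icc a b) (hpE : ∀ s ∈ E, |p.eval s| ≤ ε)
    (hpos : 0 < (volume E).toReal) (t : ℝ) (ht : t ∈ Icc a b) :
    (volume E).toReal ^ D * |p.eval t| ≤ ((D : ℝ) + 1) ^ (D + 1) * (b - a) ^ D * ε := by
  set v : ℝ := (volume E).toReal with hv
  have hfin : volume E ≠ ⊤ := by
    refine ne_top_of_le_ne_top ?_ (measure_mono hEab)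
    simp
  have hab : a ≤ b := ht.1.trans ht.2
  have hvE : volume E = ENNReal.ofReal v := by rw [hv, ENNReal.ofReal_toReal hfin]
  set δ : ℝ := v / (D + 1) with hδ
  have hδpos : 0 < δ := by rw [hδ]; positivity
  have hD1 : (0 : ℝ) < (D : ℝ) + 1 := by positivity
  have hlt : ENNReal.ofReal ((D : ℝ) * δ) < volume E := by
    rw [hvE]
    refine (ENNReal.ofReal_lt_ofReal_iff hpos).2 ?_
    rw [hδ, mul_div_assoc', div_lt_iff₀ hD1]
    nlinarith
  obtain ⟨x, hx1, hx2⟩ := exists_separated D E a b δ hE hEab hδpos hlt
  have hsep : ∀ i j : ℕ, i < j → j ≤ D → x i + δ ≤ x j := by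
    intro i j hij
    induction j with
    | zero => exact absurd hij (Nat.not_lt_zero _)
    | succ j ih =>
      intro hjD
      rcases Nat.lt_succ_iff_lt_or_eq.1 hij with h | h
      · have h1 := ih h (by omega)
        have h2 := hx2 j (by omega)
        linarith
      · subst h
        exact hx2 i (by omega)
  have hinj : Set.InjOn x (Finset.range (D + 1) : Set ℕ) := by
    intro i hi j hj hij
    have hi' : i < D + 1 := by simpa using hi
    have hj' : j < D + 1 := by simpa using hj
    rcases lt_trichotomy i j with h | h | h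
    · have := hsep i j h (by omega); linarith
    · exact h
    · have := hsep j i h (by omega); linarith
  have hdeg : p.degree < (Finset.range (D + 1)).card := by
    rw [Finset.card_range]
    refine lt_of_le_of_lt (degree_le_natDegree) ?_
    exact_mod_cast Nat.lt_succ_of_le hp
  have hinterp := Lagrange.eq_interpolate (s := Finset.range (D + 1)) (v := x) (f := p) hinj hdeg
  have heval : p.eval t = ∑ i ∈ Finset.range (D + 1),
      p.eval (x i) * (Lagrange.basis (Finset.range (D + 1)) x i).eval t := by
    conv_lhs => rw [hinterp]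
    rw [Lagrange.interpolate_apply, eval_finsetSum]
    refine Finset.sum_congr rfl fun i _ => ?_
    rw [eval_mul, eval_C]
  have hbasis : ∀ i ∈ Finset.range (D + 1),
      |(Lagrange.basis (Finset.range (D + 1)) x i).eval t| ≤ ((b - a) / δ) ^ D := by
    intro i hi
    have hi' : i < D + 1 := Finset.mem_range.1 hi
    rw [Lagrange.basis, eval_prod, Finset.abs_prod]
    have hcard : ((Finset.range (D + 1)).erase i).card = D := by
      rw [Finset.card_erase_of_mem hi, Finset.card_range]; simp
    calc ∏ j ∈ (Finset.range (D + 1)).erase i, |(Lagrange.basisDivisor (x i) (x j)).eval t|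
        ≤ ∏ _j ∈ (Finset.range (D + 1)).erase i, ((b - a) / δ) := by
          refine Finset.prod_le_prod (fun j _ => abs_nonneg _) ?_
          intro j hj
          have hji : j ≠ i := (Finset.mem_erase.1 hj).1
          have hj' : j < D + 1 := Finset.mem_range.1 (Finset.mem_erase.1 hj).2
          rw [Lagrange.basisDivisor, eval_mul, eval_C, eval_sub, eval_X, eval_C, abs_mul, abs_inv]
          have h1 : δ ≤ |x i - x j| := by
            rcases lt_or_gt_of_ne hji with h | h
            · have := hsep j i h (by omega)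
              rw [abs_of_nonneg (by linarith)]; linarith
            · have := hsep i j h (by omega)
              rw [abs_of_nonpos (by linarith)]; linarith
          have h2 : |t - x j| ≤ b - a := by
            have h3 := hEab (hx1 j (by omega))
            rw [abs_le]
            constructor <;> linarith [h3.1, h3.2, ht.1, ht.2]
          rw [div_eq_inv_mul]
          refine mul_le_mul ?_ h2 (abs_nonneg _) (by positivity)
          exact inv_anti₀ hδpos h1
      _ = ((b - a) / δ) ^ D := by rw [Finset.prod_const, hcard]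
  have hmain : |p.eval t| ≤ ((D : ℝ) + 1) * (ε * ((b - a) / δ) ^ D) := by
    rw [heval]
    calc |∑ i ∈ Finset.range (D + 1),
            p.eval (x i) * (Lagrange.basis (Finset.range (D + 1)) x i).eval t|
        ≤ ∑ i ∈ Finset.range (D + 1),
            |p.eval (x i) * (Lagrange.basis (Finset.range (D + 1)) x i).eval t| :=
          Finset.abs_sum_le_sum_abs _ _
      _ ≤ ∑ _i ∈ Finset.range (D + 1), ε * ((b - a) / δ) ^ D := by
          refine Finset.sum_le_sum fun i hi => ?_
          rw [abs_mul]
          have hi' : i < D + 1 := Finset.mem_range.1 hi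
          have h1 := hpE (x i) (hx1 i (by omega))
          exact mul_le_mul h1 (hbasis i hi) (abs_nonneg _) ((abs_nonneg _).trans h1)
      _ = ((D : ℝ) + 1) * (ε * ((b - a) / δ) ^ D) := by
          rw [Finset.sum_const, Finset.card_range, nsmul_eq_mul]; push_cast; ring
  have hvδ : v * ((b - a) / δ) = ((D : ℝ) + 1) * (b - a) := by
    rw [hδ]; field_simp
  calc v ^ D * |p.eval t| ≤ v ^ D * (((D : ℝ) + 1) * (ε * ((b - a) / δ) ^ D)) :=
        mul_le_mul_of_nonneg_left hmain (by positivity)
    _ = ((D : ℝ) + 1) ^ (D + 1) * (b - a) ^ D * ε := by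
        have h5 : v ^ D * ((b - a) / δ) ^ D = (((D : ℝ) + 1) * (b - a)) ^ D := by
          rw [← mul_pow, hvδ]
        rw [mul_pow] at h5
        calc v ^ D * (((D : ℝ) + 1) * (ε * ((b - a) / δ) ^ D))
            = ((D : ℝ) + 1) * ε * (v ^ D * ((b - a) / δ) ^ D) := by ring
          _ = ((D : ℝ) + 1) ^ (D + 1) * (b - a) ^ D * ε := by rw [h5]; ring

end Pool.Agent.RT
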