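import Pool.Agent.Helper96_RT.Remez

set_option autoImplicit false

/-!
Abstract one variable Kleinbock-Margulis marking theorem.
-/

namespace Pool.Agent.RT

open MeasureTheory Polynomial Set

/-- the point `t` is marked by a flag -/
def Marked {ι : Type*} (cmp : ι → ι → Prop) (ψ : ι → ℝ → ℝ) (S : Set ι) (ρ ε : ℝ) (t : ℝ) : Prop :=
  ∃ F : Finset ι, (∀ s ∈ F, s ∈ S) ∧ (∀ s ∈ F, ∀ s' ∈ F, s ≠ s' → cmp s s') ∧
    (∀ s ∈ F, ε ≤ ψ s t ∧ ψ s t ≤ ρ) ∧
    (∀ s ∈ S, s ∉ F → (∀ f ∈ F, cmp s f) → ρ ≤ ψ s t)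

/-- among three intervals with a common point one is contained in the union of the other two -/
theorem three_intervals {κ : Type*} (A B : κ → ℝ) (i j k : κ) (t : ℝ)
    (hi : t ∈ Icc (A i) (B i)) (hj : t ∈ Icc (A j) (B j)) (hk : t ∈ Icc (A k) (B k))
    (hij : i ≠ j) (hik : i ≠ k) (hjk : j ≠ k) :
    ∃ x ∈ ({i, j, k} : Set κ), Icc (A x) (B x) ⊆
      ⋃ y ∈ (({i, j, k} : Set κ) \ {x}), Icc (A y) (B y) := by
  have cover : ∀ x y z : κ, t ∈ Icc (A x) (B x) → t ∈ Icc (A z) (B z) →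
      A x ≤ A y → B y ≤ B z → Icc (A y) (B y) ⊆ Icc (A x) (B x) ∪ Icc (A z) (B z) := by
    intro x y z hx hz h1 h2 s hs
    by_cases h : s ≤ t
    · exact Or.inl ⟨h1.trans hs.1, h.trans hx.2⟩
    · exact Or.inr ⟨hz.1.trans (not_le.1 h).le, hs.2.trans h2⟩
  have fin : ∀ x y z : κ, y ≠ x → y ≠ z → x ∈ ({i, j, k} : Set κ) → z ∈ ({i, j, k} : Set κ) →
      y ∈ ({i, j, k} : Set κ) → t ∈ Icc (A x) (B x) → t ∈ Icc (A z) (B z) →
      A x ≤ A y → B y ≤ B z → ∃ x ∈ ({i, j, k} : Set κ), Icc (A x) (B x) ⊆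
      ⋃ y ∈ (({i, j, k} : Set κ) \ {x}), Icc (A y) (B y) := by
    intro x y z hyx hyz hx' hz' hy' hx hz h1 h2
    refine ⟨y, hy', ?_⟩
    intro s hs
    rcases cover x y z hx hz h1 h2 hs with h | h
    · exact mem_biUnion (show x ∈ _ from ⟨hx', fun h => hyx h.symm⟩) h
    · exact mem_biUnion (show z ∈ _ from ⟨hz', fun h => hyz h.symm⟩) h
  have mi : i ∈ ({i, j, k} : Set κ) := by simp
  have mj : j ∈ ({i, j, k} : Set κ) := by simp
  have mk : k ∈ ({i, j, k} : Set κ) := by simp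
  -- choose the minimal left end point and the maximal right end point
  rcases le_total (A i) (A j) with h1 | h1 <;> rcases le_total (A i) (A k) with h2 | h2 <;>
  rcases le_total (A j) (A k) with h3 | h3 <;> rcases le_total (B i) (B j) with h4 | h4 <;>
  rcases le_total (B i) (B k) with h5 | h5 <;> rcases le_total (B j) (B k) with h6 | h6 <;>
  first
  | exact fin i j k hij.symm hjk mi mk mj hi hk h1 h6
  | exact fin i k j hik.symm hjk.symm mi mj mk hi hj h2 h6
  | exact fin i j i hij.symm hij.symm mi mi mj hi hi h1 h4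
  | exact fin i k i hik.symm hik.symm mi mi mk hi hi h2 h5
  | exact fin j i k hij hik mj mk mi hj hk h1 h5
  | exact fin j k i hjk.symm hik.symm mj mi mk hj hi h3 h5
  | exact fin j i j hij hij mj mj mi hj hj h1 h4
  | exact fin j k j hjk.symm hjk.symm mj mj mk hj hj h3 h6
  | exact fin k i j hik hij mk mj mi hk hj h2 h4
  | exact fin k j i hjk hij.symm mk mi mj hk hi h3 h4

/-- thinning of a finite family of intervals -/
theorem exists_thin {κ : Type*} [DecidableEq κ] (A B : κ → ℝ) (T : Finset κ) :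
    ∃ T' : Finset κ, T' ⊆ T ∧ (⋃ x ∈ T, Icc (A x) (B x)) ⊆ (⋃ x ∈ T', Icc (A x) (B x)) ∧
      ∀ t : ℝ, (T'.filter (fun x => t ∈ Icc (A x) (B x))).card ≤ 2 := by
  classical
  let P : ℕ → Prop := fun n => ∃ T' : Finset κ, T' ⊆ T ∧ T'.card = n ∧
    (⋃ x ∈ T, Icc (A x) (B x)) ⊆ (⋃ x ∈ T', Icc (A x) (B x))
  have hP : ∃ n, P n := ⟨T.card, T, Finset.Subset.refl _, rfl, Subset.rfl⟩
  obtain ⟨T', hT', hcard, hcov⟩ := Nat.find_spec hP
  refine ⟨T', hT', hcov, ?_⟩
  intro t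
  by_contra hcon
  push Not at hcon
  obtain ⟨i, j, k, hi, hj, hk, hij, hik, hjk⟩ := Finset.two_lt_card_iff.1 hcon
  rw [Finset.mem_filter] at hi hj hk
  obtain ⟨x, hx, hxsub⟩ := three_intervals A B i j k t hi.2 hj.2 hk.2 hij hik hjk
  have hxT : x ∈ T' := by
    rcases hx with rfl | rfl | rfl
    exacts [hi.1, hj.1, hk.1]
  have hmem : ∀ y ∈ (({i, j, k} : Set κ) \ {x}), y ∈ T'.erase x := by
    rintro y ⟨hy, hyx⟩
    rw [Finset.mem_erase]
    refine ⟨hyx, ?_⟩
    rcases hy with rfl | rfl | rfl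
    exacts [hi.1, hj.1, hk.1]
  have hlt : (T'.erase x).card < Nat.find hP := by
    rw [← hcard]; exact Finset.card_erase_lt_of_mem hxT
  refine Nat.find_min hP hlt ⟨T'.erase x, (Finset.erase_subset _ _).trans hT', rfl, ?_⟩
  refine hcov.trans ?_
  intro s hs
  rw [mem_iUnion₂] at hs
  obtain ⟨y, hy, hys⟩ := hs
  by_cases hyx : y = x
  · subst hyx
    have := hxsub hys
    rw [mem_iUnion₂] at this
    obtain ⟨z, hz, hzs⟩ := this
    exact mem_biUnion (show z ∈ T'.erase y from hmem z hz) hzs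
  · exact mem_biUnion (show y ∈ T'.erase x from Finset.mem_erase.2 ⟨hyx, hy⟩) hys

/-- total length of a family of intervals of multiplicity at most two -/
theorem sum_len {κ : Type*} (A B : κ → ℝ) (T : Finset κ) (a b : ℝ)
    (hsub : ∀ x ∈ T, Icc (A x) (B x) ⊆ Icc a b)
    (hmul : ∀ t : ℝ, (T.filter (fun x => t ∈ Icc (A x) (B x))).card ≤ 2) :
    ∑ x ∈ T, volume (Icc (A x) (B x)) ≤ 2 * volume (Icc a b) := by
  classical
  have h1 : ∀ x, volume (Icc (A x) (B x)) =
      ∫⁻ t, (Icc (A x) (B x)).indicator (fun _ => (1 : ENNReal)) t := by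
    intro x
    rw [lintegral_indicator measurableSet_Icc]; simp
  simp_rw [h1]
  rw [← lintegral_finsetSum _ (fun x _ => (measurable_const.indicator measurableSet_Icc))]
  calc ∫⁻ t, ∑ x ∈ T, (Icc (A x) (B x)).indicator (fun _ => (1 : ENNReal)) t
      ≤ ∫⁻ t, (Icc a b).indicator (fun _ => (2 : ENNReal)) t := by
        refine lintegral_mono fun t => ?_
        simp only [Set.indicator_apply]
        rw [Finset.sum_ite]
        simp only [Finset.sum_const, nsmul_eq_mul, mul_one, smul_zero, add_zero]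
        by_cases ht : t ∈ Icc a b
        · rw [if_pos ht]
          exact_mod_cast hmul t
        · rw [if_neg ht]
          have : T.filter (fun x => t ∈ Icc (A x) (B x)) = ∅ := by
            rw [Finset.filter_eq_empty_iff]
            intro x hx hxt
            exact ht (hsub x hx hxt)
          rw [this]; simp
    _ = 2 * volume (Icc a b) := by
        rw [lintegral_indicator measurableSet_Icc]; simp

/-- first hitting time to the right -/
theorem hit_right (f : ℝ → ℝ) (hf : Continuous f) (ρ x b : ℝ) (hxb : x ≤ b) (hx : f x < ρ) :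
    ∃ R, x ≤ R ∧ R ≤ b ∧ (∀ t, x ≤ t → t < R → f t < ρ) ∧ (∀ t, x ≤ t → t ≤ R → f t ≤ ρ) ∧
      (x < b → x < R) ∧ ((R ≤ b ∧ ρ ≤ f R) ∨ (R = b ∧ ∀ t ∈ Icc x b, f t < ρ)) := by
  by_cases h : ∃ t ∈ Icc x b, ρ ≤ f t
  · set Z : Set ℝ := {t | t ∈ Icc x b ∧ ρ ≤ f t} with hZ
    have hZne : Z.Nonempty := by obtain ⟨t, ht, ht'⟩ := h; exact ⟨t, ht, ht'⟩
    have hZc : IsClosed Z := isClosed_Icc.inter (isClosed_le continuous_const hf)
    have hZb : BddBelow Z := ⟨x, fun t ht => ht.1.1⟩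
    have hR : sInf Z ∈ Z := hZc.csInf_mem hZne hZb
    have hlt : ∀ t, x ≤ t → t < sInf Z → f t < ρ := by
      intro t hxt htR
      by_contra hcon
      push Not at hcon
      have : sInf Z ≤ t := csInf_le hZb ⟨⟨hxt, htR.le.trans hR.1.2⟩, hcon⟩
      linarith
    have hxR : x < sInf Z := by
      rcases lt_or_eq_of_le hR.1.1 with h1 | h1
      · exact h1
      · exfalso; rw [← h1] at hR; linarith [hR.2]
    refine ⟨sInf Z, hR.1.1, hR.1.2, hlt, ?_, fun _ => hxR, Or.inl ⟨hR.1.2, hR.2⟩⟩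
    intro t hxt htR
    rcases lt_or_eq_of_le htR with h1 | h1
    · exact (hlt t hxt h1).le
    · rw [h1]
      have hcl : sInf Z ∈ closure (Iio (sInf Z) ∩ Ioi x) := by
        have h2 : Iio (sInf Z) ∩ Ioi x = Ioo x (sInf Z) := by
          ext y; simp [and_comm]
        rw [h2, closure_Ioo hxR.ne]
        exact ⟨hxR.le, le_rfl⟩
      have hsub : (Iio (sInf Z) ∩ Ioi x) ⊆ {t | f t ≤ ρ} := fun y hy => (hlt y (le_of_lt hy.2) hy.1).le
      exact (closure_minimal hsub (isClosed_le hf continuous_const)) hcl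
  · push Not at h
    exact ⟨b, hxb, le_rfl, fun t h1 h2 => h t ⟨h1, h2.le⟩, fun t h1 h2 => (h t ⟨h1, h2⟩).le,
      fun hlt => hlt, Or.inr ⟨rfl, h⟩⟩

/-- first hitting time to the left -/
theorem hit_left (f : ℝ → ℝ) (hf : Continuous f) (ρ x a : ℝ) (hxa : a ≤ x) (hx : f x < ρ) :
    ∃ L, a ≤ L ∧ L ≤ x ∧ (∀ t, L < t → t ≤ x → f t < ρ) ∧ (∀ t, L ≤ t → t ≤ x → f t ≤ ρ) ∧
      (a < x → L < x) ∧ (ρ ≤ f L ∨ (L = a ∧ ∀ t ∈ Icc a x, f t < ρ)) := by
  obtain ⟨R, h1, h2, h3, h4, h5, h6⟩ := hit_right (fun t => f (-t)) (hf.comp continuous_neg) ρ (-x) (-a)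
    (by linarith) (by simpa using hx)
  refine ⟨-R, by linarith, by linarith, ?_, ?_, ?_, ?_⟩
  · intro t ht1 ht2
    have := h3 (-t) (by linarith) (by linarith)
    simpa using this
  · intro t ht1 ht2
    have := h4 (-t) (by linarith) (by linarith)
    simpa using this
  · intro h
    have := h5 (by linarith)
    linarith
  · rcases h6 with h6 | h6
    · exact Or.inl h6.2
    · refine Or.inr ⟨by linarith [h6.1], fun t ht => ?_⟩
      have := h6.2 (-t) ⟨by linarith [ht.2], by linarith [ht.1]⟩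
      simpa using this

/-- the basic interval around a point where some function is small -/
theorem basic_interval {ι : Type*} (ψ : ι → ℝ → ℝ) (hcont : ∀ s, Continuous (ψ s))
    (ρ : ℝ) (S : Set ι) (a b : ℝ) (hab : a < b)
    (hsup : ∀ s ∈ S, ∃ t ∈ Icc a b, ρ ≤ ψ s t) (x : ℝ) (hx : x ∈ Icc a b)
    (hfin : {s ∈ S | ψ s x < ρ}.Finite) (hne : ∃ s ∈ S, ψ s x < ρ) :
    ∃ (c d : ℝ) (s : ι), s ∈ S ∧ x ∈ Icc c d ∧ c < d ∧ Icc c d ⊆ Icc a b ∧
      (∃ U : Set ℝ, IsOpen U ∧ x ∈ U ∧ U ∩ Icc a b ⊆ Icc c d) ∧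
      (∀ t ∈ Icc c d, ψ s t ≤ ρ) ∧ (∀ s' ∈ S, ∃ t ∈ Icc c d, ρ ≤ ψ s' t) := by
  classical
  have hR : ∀ s : ι, ψ s x < ρ → ∃ R, x ≤ R ∧ R ≤ b ∧ (∀ t, x ≤ t → t < R → ψ s t < ρ) ∧
      (∀ t, x ≤ t → t ≤ R → ψ s t ≤ ρ) ∧ (x < b → x < R) ∧
      ((R ≤ b ∧ ρ ≤ ψ s R) ∨ (R = b ∧ ∀ t ∈ Icc x b, ψ s t < ρ)) :=
    fun s hs => hit_right (ψ s) (hcont s) ρ x b hx.2 hs
  have hL : ∀ s : ι, ψ s x < ρ → ∃ L, a ≤ L ∧ L ≤ x ∧ (∀ t, L < t → t ≤ x → ψ s t < ρ) ∧
      (∀ t, L ≤ t → t ≤ x → ψ s t ≤ ρ) ∧ (a < x → L < x) ∧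
      (ρ ≤ ψ s L ∨ (L = a ∧ ∀ t ∈ Icc a x, ψ s t < ρ)) :=
    fun s hs => hit_left (ψ s) (hcont s) ρ x a hx.1 hs
  choose! R hR1 hR2 hR3 hR4 hR5 hR6 using hR
  choose! L hL1 hL2 hL3 hL4 hL5 hL6 using hL
  obtain ⟨s1, hs1, hs1x⟩ := hne
  obtain ⟨s0, hs0, hmax⟩ := Set.exists_max_image {s ∈ S | ψ s x < ρ} (fun s => R s - L s) hfin
    ⟨s1, hs1, hs1x⟩
  obtain ⟨hs0S, hs0x⟩ := hs0
  refine ⟨L s0, R s0, s0, hs0S, ⟨hL2 s0 hs0x, hR1 s0 hs0x⟩, ?_, ?_, ?_, ?_, ?_⟩
  · by_cases h : x < b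
    · exact lt_of_le_of_lt (hL2 s0 hs0x) (hR5 s0 hs0x h)
    · have hxb : x = b := le_antisymm hx.2 (not_lt.1 h)
      exact lt_of_lt_of_le (hL5 s0 hs0x (by rw [hxb]; exact hab)) (hR1 s0 hs0x)
  · exact Icc_subset_Icc (hL1 s0 hs0x) (hR2 s0 hs0x)
  · refine ⟨Ioo (if a < x then L s0 else a - 1) (if x < b then R s0 else b + 1), isOpen_Ioo, ?_, ?_⟩
    · constructor
      · split_ifs with h
        · exact hL5 s0 hs0x h
        · linarith [hx.1]
      · split_ifs with h
        · exact hR5 s0 hs0x h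
        · linarith [hx.2]
    · rintro t ⟨⟨h1, h2⟩, h3⟩
      constructor
      · split_ifs at h1 with h
        · exact h1.le
        · have : L s0 ≤ x := hL2 s0 hs0x
          linarith [hx.1, h3.1]
      · split_ifs at h2 with h
        · exact h2.le
        · have : x ≤ R s0 := hR1 s0 hs0x
          linarith [hx.2, h3.2]
  · intro t ht
    rcases le_total t x with h | h
    · exact hL4 s0 hs0x t ht.1 h
    · exact hR4 s0 hs0x t h ht.2
  · intro s' hs'
    by_contra hcon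
    push Not at hcon
    have hs'x : ψ s' x < ρ := hcon x ⟨hL2 s0 hs0x, hR1 s0 hs0x⟩
    have hRR : R s0 ≤ R s' := by
      rcases hR6 s' hs'x with h | h
      · by_contra hlt
        push Not at hlt
        have := hcon (R s') ⟨(hL2 s0 hs0x).trans (hR1 s' hs'x), hlt.le⟩
        linarith [h.2]
      · rw [h.1]; exact hR2 s0 hs0x
    have hLL : L s' ≤ L s0 := by
      rcases hL6 s' hs'x with h | h
      · by_contra hlt
        push Not at hlt
        have := hcon (L s') ⟨hlt.le, (hL2 s' hs'x).trans (hR1 s0 hs0x)⟩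
        linarith
      · rw [h.1]; exact hL1 s0 hs0x
    have hm : R s' - L s' ≤ R s0 - L s0 := hmax s' ⟨hs', hs'x⟩
    have hReq : R s' = R s0 := by linarith
    have hLeq : L s' = L s0 := by linarith
    have hr : ∀ t ∈ Icc x b, ψ s' t < ρ := by
      rcases hR6 s' hs'x with h | h
      · exfalso
        have := hcon (R s') ⟨by rw [hReq]; exact (hL2 s0 hs0x).trans (hR1 s0 hs0x), hReq.le⟩
        linarith [h.2]
      · exact h.2
    have hl : ∀ t ∈ Icc a x, ψ s' t < ρ := by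
      rcases hL6 s' hs'x with h | h
      · exfalso
        have := hcon (L s') ⟨hLeq.ge, by rw [hLeq]; exact (hL2 s0 hs0x).trans (hR1 s0 hs0x)⟩
        linarith
      · exact h.2
    obtain ⟨t, ht, ht'⟩ := hsup s' hs'
    rcases le_total t x with h | h
    · linarith [hl t ⟨ht.1, h⟩]
    · linarith [hr t ⟨h, ht.2⟩]

/-- the numerical constant of the marking theorem -/
def kmc : ℕ → ℕ
  | 0 => 0
  | (m + 1) => 2 * (kmc m + 1)

/-- the abstract one variable Kleinbock-Margulis theorem -/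
theorem km {ι : Type*} (cmp : ι → ι → Prop) (hsymm : ∀ s s', cmp s s' → cmp s' s)
    (ψ : ι → ℝ → ℝ) (hcont : ∀ s, Continuous (ψ s)) (ρ ε : ℝ) (κ : ENNReal)
    (hgood : ∀ s, ∀ c d : ℝ, c < d → (∃ t ∈ Icc c d, ρ ≤ ψ s t) →
      volume {t ∈ Icc c d | ψ s t < ε} ≤ κ * volume (Icc c d)) :
    ∀ (m : ℕ) (S : Set ι) (a b : ℝ), a < b →
      (∀ F : Finset ι, (∀ s ∈ F, s ∈ S) → (∀ s ∈ F, ∀ s' ∈ F, s ≠ s' → cmp s s') → F.card ≤ m) →
      (∀ s ∈ S, ∃ t ∈ Icc a b, ρ ≤ ψ s t) →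
      (∀ t ∈ Icc a b, {s ∈ S | ψ s t < ρ}.Finite) →
      volume {t ∈ Icc a b | ¬ Marked cmp ψ S ρ ε t} ≤ (kmc m : ENNReal) * κ * volume (Icc a b) := by
  classical
  intro m
  induction m with
  | zero =>
    intro S a b hab hchain hsup hfin
    have hS : ∀ s, s ∉ S := by
      intro s hs
      have := hchain {s} (by simpa using hs) (by
        intro x hx y hy hxy
        rw [Finset.mem_singleton] at hx hy
        exact absurd (hx.trans hy.symm) hxy)
      simp at this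
    have : {t ∈ Icc a b | ¬ Marked cmp ψ S ρ ε t} = ∅ := by
      rw [Set.eq_empty_iff_forall_notMem]
      rintro t ⟨_, ht⟩
      exact ht ⟨∅, by simp, by simp, by simp, fun s hs => absurd hs (hS s)⟩
    rw [this]; simp
  | succ m ih =>
    intro S a b hab hchain hsup hfin
    set Bad : Set ℝ := {t ∈ Icc a b | ¬ Marked cmp ψ S ρ ε t} with hBad
    set E : Set ℝ := {t ∈ Icc a b | ∃ s ∈ S, ψ s t < ρ} with hE
    have hBE : Bad ⊆ E := by
      rintro t ⟨h1, h2⟩
      refine ⟨h1, ?_⟩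
      by_contra hcon
      push Not at hcon
      exact h2 ⟨∅, by simp, by simp, by simp, fun s hs _ _ => hcon s hs⟩
    have key : ∀ x ∈ E, ∃ (c d : ℝ), Icc c d ⊆ Icc a b ∧
        (∃ U : Set ℝ, IsOpen U ∧ x ∈ U ∧ U ∩ Icc a b ⊆ Icc c d) ∧
        volume (Bad ∩ Icc c d) ≤ (kmc m + 1 : ENNReal) * κ * volume (Icc c d) := by
      rintro x ⟨hx, hxs⟩
      obtain ⟨c, d, s, hsS, hxcd, hcd, hsub, hU, hle, hsup'⟩ :=
        basic_interval ψ hcont ρ S a b hab hsup x hx (hfin x hx) hxs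
      refine ⟨c, d, hsub, hU, ?_⟩
      set S' : Set ι := {s' ∈ S | s' ≠ s ∧ cmp s' s} with hS'
      have hchain' : ∀ F : Finset ι, (∀ s ∈ F, s ∈ S') →
          (∀ s ∈ F, ∀ s' ∈ F, s ≠ s' → cmp s s') → F.card ≤ m := by
        intro F hF1 hF2
        have hsF : s ∉ F := fun h => (hF1 s h).2.1 rfl
        have := hchain (insert s F) (by
          intro s' hs'
          rcases Finset.mem_insert.1 hs' with h | h
          · rw [h]; exact hsS
          · exact (hF1 s' h).1) (by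
          intro s1 h1 s2 h2 h12
          rcases Finset.mem_insert.1 h1 with h1 | h1 <;> rcases Finset.mem_insert.1 h2 with h2 | h2
          · exact absurd (h1.trans h2.symm) h12
          · rw [h1]; exact hsymm _ _ (hF1 s2 h2).2.2
          · rw [h2]; exact (hF1 s1 h1).2.2
          · exact hF2 s1 h1 s2 h2 h12)
        rw [Finset.card_insert_of_notMem hsF] at this
        omega
      have hih := ih S' c d hcd hchain' (fun s' hs' => hsup' s' hs'.1)
        (fun t ht => (hfin t (hsub ht)).subset (fun s' hs' => ⟨hs'.1.1, hs'.2⟩))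
      have hcov : Bad ∩ Icc c d ⊆ {t ∈ Icc c d | ¬ Marked cmp ψ S' ρ ε t} ∪
          {t ∈ Icc c d | ψ s t < ε} := by
        rintro t ⟨⟨_, ht⟩, htcd⟩
        by_contra hcon
        rw [Set.mem_union, not_or] at hcon
        obtain ⟨hc1, hc2⟩ := hcon
        have hM : Marked cmp ψ S' ρ ε t := by
          by_contra h; exact hc1 ⟨htcd, h⟩
        have hε : ε ≤ ψ s t := by
          by_contra h; exact hc2 ⟨htcd, not_le.1 h⟩
        obtain ⟨F, hF1, hF2, hF3, hF4⟩ := hM
        refine ht ⟨insert s F, ?_, ?_, ?_, ?_⟩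
        · intro s' hs'
          rcases Finset.mem_insert.1 hs' with h | h
          · rw [h]; exact hsS
          · exact (hF1 s' h).1
        · intro s1 h1 s2 h2 h12
          rcases Finset.mem_insert.1 h1 with h1 | h1 <;> rcases Finset.mem_insert.1 h2 with h2 | h2
          · exact absurd (h1.trans h2.symm) h12
          · rw [h1]; exact hsymm _ _ (hF1 s2 h2).2.2
          · rw [h2]; exact (hF1 s1 h1).2.2
          · exact hF2 s1 h1 s2 h2 h12
        · intro s' hs'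
          rcases Finset.mem_insert.1 hs' with h | h
          · rw [h]; exact ⟨hε, hle t htcd⟩
          · exact hF3 s' h
        · intro s' hs' hs'F hcmp
          refine hF4 s' ⟨hs', ?_, ?_⟩ ?_ ?_
          · rintro rfl; exact hs'F (Finset.mem_insert_self _ _)
          · exact hcmp s (Finset.mem_insert_self _ _)
          · exact fun h => hs'F (Finset.mem_insert_of_mem h)
          · exact fun f hf => hcmp f (Finset.mem_insert_of_mem hf)
      calc volume (Bad ∩ Icc c d) ≤ volume ({t ∈ Icc c d | ¬ Marked cmp ψ S' ρ ε t} ∪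
          {t ∈ Icc c d | ψ s t < ε}) := measure_mono hcov
        _ ≤ volume {t ∈ Icc c d | ¬ Marked cmp ψ S' ρ ε t} + volume {t ∈ Icc c d | ψ s t < ε} :=
          measure_union_le _ _
        _ ≤ (kmc m : ENNReal) * κ * volume (Icc c d) + κ * volume (Icc c d) :=
          add_le_add hih (hgood s c d hcd (hsup' s hsS))
        _ = (kmc m + 1 : ENNReal) * κ * volume (Icc c d) := by ring
    choose! c d hcd hU hvol using key
    choose! U hUo hxU hUsub using hU
    have hfinal : volume (Bad ∩ E) ≤ (kmc (m + 1) : ENNReal) * κ * volume (Icc a b) := by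
      by_cases hEne : E.Nonempty
      · -- Lindelof
        obtain ⟨T, hTc, hTcov⟩ := TopologicalSpace.isOpen_iUnion_countable (fun x : E => U x.1)
          (fun x => hUo x.1 x.2)
        have hTne : T.Nonempty := by
          obtain ⟨x, hx⟩ := hEne
          have h1 : x ∈ ⋃ x : E, U x.1 := mem_iUnion.2 ⟨⟨x, hx⟩, hxU x hx⟩
          rw [← hTcov] at h1
          obtain ⟨y, hy, _⟩ := mem_iUnion₂.1 h1
          exact ⟨y, hy⟩
        obtain ⟨f, hf⟩ := hTc.exists_eq_range hTne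
        have hBsub : Bad ∩ E ⊆ ⋃ n : ℕ, (Bad ∩ Icc (c (f n).1) (d (f n).1)) := by
          rintro t ⟨ht1, ht2⟩
          have h1 : t ∈ ⋃ x : E, U x.1 := mem_iUnion.2 ⟨⟨t, ht2⟩, hxU t ht2⟩
          rw [← hTcov] at h1
          obtain ⟨y, hy, hty⟩ := mem_iUnion₂.1 h1
          rw [hf] at hy
          obtain ⟨n, rfl⟩ := hy
          exact mem_iUnion.2 ⟨n, ht1, hUsub _ (f n).2 ⟨hty, ht1.1⟩⟩
        refine (measure_mono hBsub).trans ?_
        rw [measure_iUnion_eq_iSup_accumulate]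
        refine iSup_le fun n => ?_
        obtain ⟨T', hT', hcov, hmul⟩ := exists_thin (fun k : ℕ => c (f k).1) (fun k => d (f k).1)
          (Finset.range (n + 1))
        have hacc : accumulate (fun n : ℕ => (Bad ∩ Icc (c (f n).1) (d (f n).1))) n ⊆
            ⋃ k ∈ T', (Bad ∩ Icc (c (f k).1) (d (f k).1)) := by
          intro t ht
          rw [mem_accumulate] at ht
          obtain ⟨k, hk, htk⟩ := ht
          have h1 : t ∈ ⋃ x ∈ Finset.range (n + 1), Icc (c (f x).1) (d (f x).1) :=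
            mem_biUnion (show k ∈ Finset.range (n + 1) from Finset.mem_range.2 (by omega)) htk.2
          obtain ⟨j, hj, htj⟩ := mem_iUnion₂.1 (hcov h1)
          exact mem_biUnion (show j ∈ T' from hj) ⟨htk.1, htj⟩
        calc volume (accumulate (fun n : ℕ => (Bad ∩ Icc (c (f n).1) (d (f n).1))) n)
            ≤ volume (⋃ k ∈ T', (Bad ∩ Icc (c (f k).1) (d (f k).1))) := measure_mono hacc
          _ ≤ ∑ k ∈ T', volume (Bad ∩ Icc (c (f k).1) (d (f k).1)) := measure_biUnion_finset_le _ _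
          _ ≤ ∑ k ∈ T', (kmc m + 1 : ENNReal) * κ * volume (Icc (c (f k).1) (d (f k).1)) :=
            Finset.sum_le_sum fun k _ => hvol _ (f k).2
          _ = (kmc m + 1 : ENNReal) * κ * ∑ k ∈ T', volume (Icc (c (f k).1) (d (f k).1)) := by
            rw [Finset.mul_sum]
          _ ≤ (kmc m + 1 : ENNReal) * κ * (2 * volume (Icc a b)) := by
            gcongr
            exact sum_len _ _ T' a b (fun x _ => hcd _ (f x).2) hmul
          _ = (kmc (m + 1) : ENNReal) * κ * volume (Icc a b) := by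
            rw [kmc]; push_cast; ring
      · rw [Set.not_nonempty_iff_eq_empty] at hEne
        rw [hEne]; simp
    rwa [Set.inter_eq_self_of_subset_left hBE] at hfinal

end Pool.Agent.RT
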